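import Pool.Agent.Lib.MP_ba0fa5_ag.Iface

/-!
MP_ba0fa5_ag, module GAFF: points over `x = c`, `c ≠ 0, 1`.
-/

set_option autoImplicit false

namespace Pool.Agent.Lib.MP_ba0fa5_ag.H7

open scoped Classical
open Finset Polynomial

/-- evaluation of a polynomial in two variables -/
noncomputable def Th (k : Type) [Field k] {A : Type} [CommRing A] [Algebra k A] (x y : A) :
    k[X][X] →+* A :=
  eval₂RingHom (aeval x : k[X] →ₐ[k] A).toRingHom y

section

variable {k : Type} [Field k] {A A' : Type} [CommRing A] [Algebra k A] [CommRing A'] [Algebra k A']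

theorem Th_C (x y : A) (r : k[X]) : Th k x y (C r) = aeval x r := by
  simp [Th]

theorem Th_X (x y : A) : Th k x y X = y := by
  simp [Th]

theorem map_Th (φ : A →ₐ[k] A') (x y : A) (p : k[X][X]) :
    φ (Th k x y p) = Th k (φ x) (φ y) p := by
  have h : φ.toRingHom.comp (Th k x y) = Th k (φ x) (φ y) := by
    apply Polynomial.ringHom_ext
    · intro r
      change φ (Th k x y (C r)) = _
      rw [Th_C, Th_C, aeval_algHom_apply]
    · change φ (Th k x y X) = _
      rw [Th_X, Th_X]
  exact RingHom.congr_fun h p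

end

section

variable {k K : Type} [Field k] [Field K] [Algebra k K] {m a b : ℕ} {ι : RatFunc k →ₐ[k] K} {y : K}

/-- the polynomial `X^a (1-X)^b` -/
noncomputable def hp (k : Type) [Field k] (a b : ℕ) : k[X] := X ^ a * (1 - X) ^ b

theorem aeval_ι (r : k[X]) : aeval (ι RatFunc.X) r = ι (algebraMap k[X] (RatFunc k) r) := by
  have h : (aeval (ι RatFunc.X) : k[X] →ₐ[k] K) =
      ι.comp (IsScalarTower.toAlgHom k k[X] (RatFunc k)) := by
    apply Polynomial.algHom_ext
    rw [aeval_X, AlgHom.comp_apply, IsScalarTower.toAlgHom_apply, RatFunc.algebraMap_X]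
  rw [h, AlgHom.comp_apply, IsScalarTower.toAlgHom_apply]

theorem alg_hp : algebraMap k[X] (RatFunc k) (hp k a b) =
    RatFunc.X ^ a * (1 - RatFunc.X) ^ b := by
  rw [hp, map_mul, map_pow, map_pow, map_sub, map_one, RatFunc.algebraMap_X]

theorem aeval_hp {A : Type} [CommRing A] [Algebra k A] (c : A) :
    aeval c (hp k a b) = c ^ a * (1 - c) ^ b := by
  simp [hp]

/-- a polynomial relation between `x` and `y` holds for all points of the curve -/
theorem rel (hK : Kummer k K m a b ι y) (hm : 0 < m) {F : Type} [Field F] [Algebra k F] (c d : F)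
    (hd : d ^ m = c ^ a * (1 - c) ^ b) (p : k[X][X]) (h : Th k (ι RatFunc.X) y p = 0) :
    Th k c d p = 0 := by
  set f : k[X][X] := X ^ m - C (hp k a b) with hf
  have hmon : f.Monic := monic_X_pow_sub_C _ hm.ne'
  have hfK : Th k (ι RatFunc.X) y f = 0 := by
    rw [hf, map_sub, map_pow, Th_X, Th_C, aeval_ι, alg_hp, hK.eq, sub_self]
  have hfF : Th k c d f = 0 := by
    rw [hf, map_sub, map_pow, Th_X, Th_C, aeval_hp, hd, sub_self]
  have hdiv := modByMonic_add_div p f
  have hR : Th k (ι RatFunc.X) y (p %ₘ f) = 0 := by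
    have h1 := congrArg (Th k (ι RatFunc.X) y) hdiv
    rw [map_add, map_mul, hfK, zero_mul, add_zero, h] at h1
    exact h1
  have hdeg : (p %ₘ f).degree < m := by
    have h1 := degree_modByMonic_lt p hmon
    rwa [hf, degree_X_pow_sub_C hm] at h1
  have hR0 : p %ₘ f = 0 := by
    set R := p %ₘ f with hRdef
    have hsum : R = ∑ i ∈ range m, C (R.coeff i) * X ^ i := by
      ext1 i
      rw [finsetSum_coeff]
      simp only [coeff_C_mul_X_pow]
      rw [sum_ite_eq (range m) i]
      split_ifs with h1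
      · rfl
      · rw [mem_range, not_lt] at h1
        exact coeff_eq_zero_of_degree_lt (hdeg.trans_le (by exact_mod_cast h1))
    have h2 : ∑ i : Fin m, ι (algebraMap k[X] (RatFunc k) (R.coeff i)) * y ^ (i : ℕ) = 0 := by
      rw [← hR]
      conv_rhs => rw [hsum]
      rw [map_sum, Finset.sum_range]
      refine sum_congr rfl fun i _ => ?_
      rw [map_mul, map_pow, Th_C, Th_X, aeval_ι]
    obtain ⟨c0, _, huniq⟩ := hK.basis 0
    have h3 := huniq (fun i => algebraMap k[X] (RatFunc k) (R.coeff i)) h2.symm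
    have h4 := huniq (fun _ => 0) (by simp)
    have h5 : ∀ i : Fin m, R.coeff i = 0 := by
      intro i
      have h6 := congrFun (h3.trans h4.symm) i
      rw [← map_zero (algebraMap k[X] (RatFunc k))] at h6
      exact RatFunc.algebraMap_injective k h6
    rw [hsum]
    refine sum_eq_zero fun i hi => ?_
    rw [h5 ⟨i, mem_range.1 hi⟩]
    simp
  rw [← hdiv, hR0, zero_add, map_mul, hfF, zero_mul]

/-- elements of the integral closure, multiplied by `h^m`, are polynomials in `x` and `y` -/
theorem clear (hG : GintStmt) (hK : Kummer k K m a b ι y) (hm : 0 < m)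
    (hζ : ∃ ζ : k, IsPrimitiveRoot ζ m) (z : K) (hz : z ∈ intCl k K {ι RatFunc.X}) :
    ∃ p : k[X][X], Th k (ι RatFunc.X) y p = Th k (ι RatFunc.X) y (C (hp k a b ^ m)) * z := by
  obtain ⟨c, hc, _⟩ := hK.basis z
  have h1 := (hG k K m a b ι y hK hm hζ {RatFunc.X} (Or.inl rfl) c).1 (by
    rw [Set.image_singleton, ← hc]; exact hz)
  set h := algebraMap k[X] (RatFunc k) (hp k a b) with hh
  have h2 : ∀ i : Fin m, ∃ p : k[X], algebraMap k[X] (RatFunc k) p = c i * h ^ (i : ℕ) := by
    intro i
    apply IsIntegrallyClosed.exists_algebraMap_eq_of_isIntegral_pow hm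
    have h3 := h1 i
    rw [← alg_hp, ← hh, Algebra.adjoin_singleton_eq_range_aeval] at h3
    obtain ⟨q, hq⟩ := h3
    have h4 : (c i * h ^ (i : ℕ)) ^ m =
        algebraMap k[X] (RatFunc k) (q * (hp k a b) ^ ((i : ℕ) * (m - 1))) := by
      have h5 : aeval (RatFunc.X : RatFunc k) q = algebraMap k[X] (RatFunc k) q := by
        exact aeval_ι (ι := AlgHom.id k (RatFunc k)) q
      have hq' : algebraMap k[X] (RatFunc k) q = c i ^ m * h ^ (i : ℕ) := by
        rw [← h5]; exact hq
      obtain ⟨m', rfl⟩ : ∃ m', m = m' + 1 := ⟨m - 1, by omega⟩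
      rw [map_mul, map_pow, ← hh, hq', Nat.add_sub_cancel]
      ring
    rw [h4]
    exact isIntegral_algebraMap
  choose q hq using h2
  refine ⟨∑ i : Fin m, C (q i * hp k a b ^ (m - i)) * X ^ (i : ℕ), ?_⟩
  rw [map_sum, Th_C, map_pow, aeval_ι, ← hh]
  conv_rhs => rw [hc]
  rw [mul_sum]
  refine sum_congr rfl fun i _ => ?_
  rw [map_mul, map_pow, Th_C, Th_X, aeval_ι, map_mul, hq, map_pow, ← hh, map_mul, map_mul,
    map_pow, map_pow, ← mul_assoc]
  congr 1
  have h3 : ι h ^ m = ι h ^ (i : ℕ) * ι h ^ (m - i) := by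
    rw [← pow_add, Nat.add_sub_cancel' i.2.le]
  rw [h3]
  ring

end

theorem gaff (hG : GintStmt) : GaffStmt := by
  intro k K _ _ _ m a b ι y hK hm hζ F _ _ _ c hc0 hc1
  set B := intCl k K {ι RatFunc.X} with hB
  have hxB : ι RatFunc.X ∈ B := by
    rw [hB, mem_intCl]
    exact isIntegral_algebraMap (x := (⟨ι RatFunc.X, Algebra.subset_adjoin rfl⟩ :
      Algebra.adjoin k {ι RatFunc.X}))
  have hyB : y ∈ B := by
    rw [hB, mem_intCl]
    apply IsIntegral.of_pow hm
    rw [hK.eq]
    have h1 : ι (RatFunc.X ^ a * (1 - RatFunc.X) ^ b) ∈ Algebra.adjoin k {ι RatFunc.X} := by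
      rw [map_mul, map_pow, map_pow, map_sub, map_one]
      have h2 : ι RatFunc.X ∈ Algebra.adjoin k {ι RatFunc.X} := Algebra.subset_adjoin rfl
      exact mul_mem (pow_mem h2 _) (pow_mem (sub_mem (one_mem _) h2) _)
    exact isIntegral_algebraMap (x := (⟨_, h1⟩ : Algebra.adjoin k {ι RatFunc.X}))
  set xB : B := ⟨ι RatFunc.X, hxB⟩ with hxBdef
  set yB : B := ⟨y, hyB⟩ with hyBdef
  have hval : ∀ p : k[X][X], ((Th k xB yB p : B) : K) = Th k (ι RatFunc.X) y p := fun p =>
    map_Th B.val xB yB p
  set δ : F := (c ^ a * (1 - c) ^ b) ^ m with hδ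
  have hδ0 : δ ≠ 0 := by
    apply pow_ne_zero
    exact mul_ne_zero (pow_ne_zero _ hc0) (pow_ne_zero _ (sub_ne_zero.2 (Ne.symm hc1)))
  have hThδ : ∀ d : F, Th k c d (C (hp k a b ^ m)) = δ := by
    intro d
    rw [Th_C, map_pow, aeval_hp]
  have hyrel : yB ^ m = xB ^ a * (1 - xB) ^ b := by
    ext
    push_cast
    change y ^ m = _
    rw [hK.eq, map_mul, map_pow, map_pow, map_sub, map_one]
  -- the map
  let S := {φ : B →ₐ[k] F // ∀ h : ι RatFunc.X ∈ B, φ ⟨ι RatFunc.X, h⟩ = c}
  let T := {d : F // d ^ m = c ^ a * (1 - c) ^ b}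
  have hφx : ∀ φ : S, φ.1 xB = c := fun φ => φ.2 hxB
  let Φ : S → T := fun φ => ⟨φ.1 yB, by
    rw [← map_pow, hyrel, map_mul, map_pow, map_pow, map_sub, map_one, hφx]⟩
  have hinj : Function.Injective Φ := by
    intro φ φ' hφφ
    have hy : φ.1 yB = φ'.1 yB := congrArg Subtype.val hφφ
    ext z
    obtain ⟨p, hp1⟩ := clear hG hK hm hζ z.1 z.2
    have hp2 : Th k xB yB p = Th k xB yB (C (hp k a b ^ m)) * z := by
      ext
      rw [MulMemClass.coe_mul, hval, hval, hp1]
    have hp3 : ∀ ψ : S, Th k c (ψ.1 yB) p = δ * ψ.1 z := by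
      intro ψ
      have h1 := congrArg ψ.1 hp2
      rw [map_mul, map_Th, map_Th, hφx, hThδ] at h1
      exact h1
    have h1 := hp3 φ
    rw [hy, hp3 φ'] at h1
    exact (mul_left_cancel₀ hδ0 h1).symm
  have hsurj : Function.Surjective Φ := by
    rintro ⟨d, hd⟩
    have hrel : ∀ p q : k[X][X], Th k (ι RatFunc.X) y p = Th k (ι RatFunc.X) y q →
        Th k c d p = Th k c d q := by
      intro p q hpq
      have h1 := rel hK hm c d hd (p - q) (by rw [map_sub, hpq, sub_self])
      rw [map_sub] at h1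
      exact sub_eq_zero.1 h1
    have hex : ∀ z : B, ∃ p : k[X][X], Th k (ι RatFunc.X) y p =
        Th k (ι RatFunc.X) y (C (hp k a b ^ m)) * z := fun z => clear hG hK hm hζ z.1 z.2
    choose P hP using hex
    -- the value is determined by any polynomial representing `D z`
    have hval2 : ∀ (z : B) (q : k[X][X]), Th k (ι RatFunc.X) y q =
        Th k (ι RatFunc.X) y (C (hp k a b ^ m)) * z → Th k c d (P z) = Th k c d q := by
      intro z q hq
      exact hrel _ _ ((hP z).trans hq.symm)
    let φ : B →ₐ[k] F :=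
      { toFun := fun z => Th k c d (P z) / δ
        map_one' := by
          rw [hval2 1 (C (hp k a b ^ m)) (by simp), hThδ]
          exact div_self hδ0
        map_zero' := by
          rw [hval2 0 0 (by simp)]
          simp
        map_add' := by
          intro z w
          rw [hval2 (z + w) (P z + P w) (by rw [map_add, hP, hP]; push_cast; ring), map_add,
            add_div]
        map_mul' := by
          intro z w
          have h1 : Th k c d (C (hp k a b ^ m) * P (z * w)) = Th k c d (P z * P w) := by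
            apply hrel
            rw [map_mul, map_mul, hP, hP, hP]
            push_cast
            ring
          rw [map_mul, map_mul, hThδ] at h1
          field_simp
          rw [mul_comm, h1]
        commutes' := by
          intro r
          rw [hval2 (algebraMap k B r) (C (hp k a b ^ m) * C (C r)) (by
            rw [map_mul]
            congr 1
            rw [Th_C, aeval_C]
            rfl), map_mul, hThδ, Th_C, aeval_C]
          field_simp }
    have hφ : ∀ z : B, φ z = Th k c d (P z) / δ := fun z => rfl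
    have hφx' : φ xB = c := by
      rw [hφ, hval2 xB (C (hp k a b ^ m) * C X) (by
        rw [map_mul]
        congr 1
        rw [Th_C, aeval_X]), map_mul, hThδ, Th_C, aeval_X]
      field_simp
    have hφy' : φ yB = d := by
      rw [hφ, hval2 yB (C (hp k a b ^ m) * X) (by
        rw [map_mul]
        congr 1
        rw [Th_X]), map_mul, hThδ, Th_X]
      field_simp
    refine ⟨⟨φ, fun _ => hφx'⟩, ?_⟩
    ext
    exact hφy'
  have hfin : Finite S := Finite.of_injective Φ hinj
  refine ⟨hfin, ?_⟩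
  have h1 : Nat.card S = Nat.card T := Nat.card_congr (Equiv.ofBijective Φ ⟨hinj, hsurj⟩)
  rw [h1, Nat.card_eq_fintype_card, Fintype.card_subtype]

end Pool.Agent.Lib.MP_ba0fa5_ag.H7
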