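import Pool.Agent.Lib.MP_ba0fa5_ag.Iface

/-!
MP_ba0fa5_ag, module GJAC: the number of affine points through Jacobi sums.
-/

set_option autoImplicit false

namespace Pool.Agent.Lib.MP_ba0fa5_ag.H7

open scoped Classical
open Finset

theorem card_dvd_mul (m a : ℕ) (hm : 0 < m) :
    ((range m).filter (fun j => m ∣ j * a)).card = a.gcd m := by
  have hg : 0 < a.gcd m := Nat.gcd_pos_of_pos_right a hm
  obtain ⟨m1, hm1⟩ := Nat.gcd_dvd_right a m
  obtain ⟨a1, ha1⟩ := Nat.gcd_dvd_left a m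
  set g := a.gcd m with hgdef
  have hm1pos : 0 < m1 := by
    rcases Nat.eq_zero_or_pos m1 with h | h
    · rw [h, mul_zero] at hm1; omega
    · exact h
  have hcop : m1.Coprime a1 := by
    have h1 : Nat.Coprime (a / g) (m / g) := Nat.coprime_div_gcd_div_gcd hg
    have h2 : a / g = a1 := Nat.div_eq_of_eq_mul_right hg ha1
    have h3 : m / g = m1 := Nat.div_eq_of_eq_mul_right hg hm1
    rw [h2, h3] at h1
    exact h1.symm
  have key : ∀ j, m ∣ j * a ↔ m1 ∣ j := by
    intro j
    rw [hm1, ha1, show j * (g * a1) = g * (j * a1) by ring, Nat.mul_dvd_mul_iff_left hg]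
    exact ⟨fun h => hcop.dvd_of_dvd_mul_right h, fun h => h.mul_right _⟩
  have h4 : (range m).filter (fun j => m ∣ j * a) = (range g).image (fun i => i * m1) := by
    ext j
    simp only [mem_filter, mem_range, mem_image, key]
    constructor
    · rintro ⟨hj, i, rfl⟩
      refine ⟨i, ?_, by ring⟩
      rw [hm1, mul_comm g m1] at hj
      exact Nat.lt_of_mul_lt_mul_left hj
    · rintro ⟨i, hi, rfl⟩
      refine ⟨?_, Dvd.intro_left i rfl⟩
      rw [hm1]
      exact Nat.mul_lt_mul_of_pos_right hi hm1pos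
  rw [h4, card_image_of_injective, card_range]
  intro i j hij
  exact Nat.eq_of_mul_eq_mul_right hm1pos hij

/-- number of `m`-th roots through characters -/
theorem card_roots (F : Type) [Field F] [Fintype F] (m : ℕ) (hm : 0 < m) (hd : m ∣ Fintype.card F - 1)
    (χ : MulChar F ℂ) (hχ : orderOf χ = m) (t : F) (ht : t ≠ 0) :
    ((univ.filter (fun d : F => d ^ m = t)).card : ℂ) = ∑ j ∈ range m, (χ ^ j) t := by
  obtain ⟨g, hg⟩ := IsCyclic.exists_generator (α := Fˣ)
  have hcard : orderOf g = Fintype.card F - 1 := by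
    rw [orderOf_eq_card_of_forall_mem_zpowers hg, Nat.card_eq_fintype_card, Fintype.card_units]
  have hcpos : 0 < Fintype.card F - 1 := by
    have := Fintype.one_lt_card (α := F); omega
  obtain ⟨r, hr⟩ := hd
  have hrpos : 0 < r := by
    rcases Nat.eq_zero_or_pos r with h | h
    · rw [h, mul_zero] at hr; omega
    · exact h
  -- primitive root of order m in F
  have hζ : IsPrimitiveRoot ((g ^ r : Fˣ) : F) m := by
    have h1 : IsPrimitiveRoot (g ^ r : Fˣ) m := by
      have h2 := IsPrimitiveRoot.orderOf g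
      rw [hcard] at h2
      exact h2.pow hcpos (by rw [hr]; ring)
    exact h1.map_of_injective (f := Units.coeHom F) Units.val_injective
  -- value of χ at the generator
  have hμ : orderOf (χ g) = m := by
    apply Nat.dvd_antisymm
    · apply orderOf_dvd_of_pow_eq_one
      rw [← MulChar.pow_apply_coe, ← hχ, pow_orderOf_eq_one, MulChar.one_apply_coe]
    · rw [← hχ]
      apply orderOf_dvd_of_pow_eq_one
      rw [MulChar.eq_iff hg, MulChar.pow_apply_coe, MulChar.one_apply_coe]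
      exact pow_orderOf_eq_one _
  obtain ⟨k, hk⟩ : ∃ k : ℕ, g ^ k = Units.mk0 t ht := by
    have := hg (Units.mk0 t ht)
    rw [← mem_powers_iff_mem_zpowers] at this
    exact this
  have hkt : (g : F) ^ k = t := by
    have := congrArg Units.val hk
    simpa using this
  have hχt : χ t = (χ g) ^ k := by
    rw [← hkt, map_pow]
  have hiff : (∃ β : F, β ^ m = t) ↔ χ t = 1 := by
    constructor
    · rintro ⟨β, rfl⟩
      have hβ : β ≠ 0 := by
        rintro rfl
        rw [zero_pow hm.ne'] at ht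
        exact ht rfl
      rw [map_pow, ← MulChar.pow_apply' χ hm.ne', ← hχ, pow_orderOf_eq_one]
      exact MulChar.one_apply hβ.isUnit
    · intro h
      rw [hχt] at h
      have := orderOf_dvd_of_pow_eq_one h
      rw [hμ] at this
      obtain ⟨c, hc⟩ := this
      refine ⟨(g : F) ^ c, ?_⟩
      rw [← pow_mul, mul_comm c m, ← hc, hkt]
  have h1 : univ.filter (fun d : F => d ^ m = t) = (Polynomial.nthRoots m t).toFinset := by
    ext d
    simp [Polynomial.mem_nthRoots hm]
  have h2 : (univ.filter (fun d : F => d ^ m = t)).card = if χ t = 1 then m else 0 := by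
    rw [h1, Multiset.toFinset_card_of_nodup (hζ.nthRoots_nodup ht), hζ.card_nthRoots]
    simp only [hiff]
  have h3 : ∀ j ∈ range m, (χ ^ j) t = (χ t) ^ j := by
    intro j _
    have := MulChar.pow_apply_coe χ j (Units.mk0 t ht)
    simpa using this
  rw [sum_congr rfl h3, h2]
  split_ifs with h
  · simp [h]
  · have h4 : (χ t) ^ m = 1 := by
      have := MulChar.pow_apply_coe χ m (Units.mk0 t ht)
      rw [← hχ, pow_orderOf_eq_one, MulChar.one_apply_coe] at this
      rw [← hχ]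
      simpa using this.symm
    rw [geom_sum_eq h, h4]
    simp

/-- the number of affine points as a sum of Jacobi sums -/
theorem sum_jacobi (F : Type) [Field F] [Fintype F] (m a b : ℕ) (hm : 0 < m)
    (hd : m ∣ Fintype.card F - 1) (χ : MulChar F ℂ) (hχ : orderOf χ = m) :
    ((∑ c ∈ (univ : Finset F).filter (fun c => c ≠ 0 ∧ c ≠ 1),
      (univ.filter (fun d : F => d ^ m = c ^ a * (1 - c) ^ b)).card : ℕ) : ℂ) =
    ∑ j ∈ range m, jacobiSum (χ ^ (j * a)) (χ ^ (j * b)) := by
  have hpow : ∀ (n : ℕ) (x : F), x ≠ 0 → (χ ^ n) x = (χ x) ^ n := by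
    intro n x hx
    have := MulChar.pow_apply_coe χ n (Units.mk0 x hx)
    simpa using this
  have hset : (univ : Finset F).filter (fun c => c ≠ 0 ∧ c ≠ 1) = univ \ {0, 1} := by
    ext c
    simp
  rw [Nat.cast_sum]
  have h1 : ∀ c ∈ (univ : Finset F).filter (fun c => c ≠ 0 ∧ c ≠ 1),
      ((univ.filter (fun d : F => d ^ m = c ^ a * (1 - c) ^ b)).card : ℂ) =
        ∑ j ∈ range m, (χ ^ (j * a)) c * (χ ^ (j * b)) (1 - c) := by
    intro c hc
    obtain ⟨hc0, hc1⟩ := (mem_filter.1 hc).2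
    have hc1' : 1 - c ≠ 0 := sub_ne_zero.2 (Ne.symm hc1)
    have ht : c ^ a * (1 - c) ^ b ≠ 0 := mul_ne_zero (pow_ne_zero _ hc0) (pow_ne_zero _ hc1')
    rw [card_roots F m hm hd χ hχ _ ht]
    refine sum_congr rfl fun j _ => ?_
    rw [hpow j _ ht, hpow _ _ hc0, hpow _ _ hc1', map_mul, map_pow, map_pow, mul_pow, ← pow_mul,
      ← pow_mul, mul_comm a j, mul_comm b j]
  rw [sum_congr rfl h1, sum_comm]
  refine sum_congr rfl fun j _ => ?_
  rw [jacobiSum_eq_sum_sdiff, hset]

/-- the Jacobi sums -/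
theorem jacobi_val (F : Type) [Field F] [Fintype F] (m a b : ℕ) (hm : Odd m)
    (χ : MulChar F ℂ) (hχ : orderOf χ = m) (hab : (a.gcd b).gcd m = 1) (θ : ℂ) (hθ : θ ≠ 0)
    (ψ : AddChar F ℂ) (hg : ∀ η : MulChar F ℂ, η ^ m = 1 → η ≠ 1 → gaussSum η ψ = - θ)
    (j : ℕ) (hj : j < m) :
    jacobiSum (χ ^ (j * a)) (χ ^ (j * b)) =
      - θ + (θ - 1) * ((if m ∣ j * a then 1 else 0) + (if m ∣ j * b then 1 else 0) +
        (if m ∣ j * (a + b) then 1 else 0)) +
      (if j = 0 then (Fintype.card F + 1 - 2 * θ) else 0) := by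
  have hone : ∀ n : ℕ, χ ^ n = 1 ↔ m ∣ n := by
    intro n
    rw [← hχ]
    exact orderOf_dvd_iff_pow_eq_one.symm
  have htor : ∀ n : ℕ, (χ ^ n) ^ m = 1 := by
    intro n
    rw [← pow_mul, hone]
    exact Dvd.intro_left n rfl
  have hmul : χ ^ (j * a) * χ ^ (j * b) = χ ^ (j * (a + b)) := by
    rw [← pow_add, mul_add]
  rcases Nat.eq_zero_or_pos j with rfl | hj0
  · simp only [zero_mul, pow_zero, dvd_zero, if_true]
    rw [jacobiSum_one_one]
    ring
  · have hjne : j ≠ 0 := hj0.ne'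
    have two : ∀ c d : ℕ, (∀ e, e ∣ c → e ∣ d → e ∣ a.gcd b) → m ∣ j * c → m ∣ j * d → False := by
      intro c d hcd hc hd
      have h1 : m ∣ j * c.gcd d := by
        rw [← Nat.gcd_mul_left]
        exact Nat.dvd_gcd hc hd
      have h2 : m ∣ j * (a.gcd b) :=
        h1.trans (Nat.mul_dvd_mul_left j (hcd _ (Nat.gcd_dvd_left c d) (Nat.gcd_dvd_right c d)))
      have h3 : m.Coprime (a.gcd b) := by
        rw [Nat.coprime_comm]; exact hab
      exact absurd (Nat.le_of_dvd hj0 (h3.dvd_of_dvd_mul_right h2)) (by omega)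
    have hAB : ¬ (m ∣ j * a ∧ m ∣ j * b) := fun h =>
      two a b (fun e h1 h2 => Nat.dvd_gcd h1 h2) h.1 h.2
    have hAC : ¬ (m ∣ j * a ∧ m ∣ j * (a + b)) := fun h =>
      two a (a + b) (fun e h1 h2 => Nat.dvd_gcd h1 ((Nat.dvd_add_right h1).1 h2)) h.1 h.2
    have hBC : ¬ (m ∣ j * b ∧ m ∣ j * (a + b)) := fun h =>
      two b (a + b) (fun e h1 h2 => Nat.dvd_gcd ((Nat.dvd_add_left h1).1 h2) h1) h.1 h.2
    simp only [if_neg hjne]
    by_cases hA : m ∣ j * a
    · have hB : ¬ m ∣ j * b := fun h => hAB ⟨hA, h⟩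
      have hC : ¬ m ∣ j * (a + b) := fun h => hAC ⟨hA, h⟩
      rw [if_pos hA, if_neg hB, if_neg hC, (hone _).2 hA,
        jacobiSum_one_nontrivial (fun h => hB ((hone _).1 h))]
      ring
    by_cases hB : m ∣ j * b
    · have hC : ¬ m ∣ j * (a + b) := fun h => hBC ⟨hB, h⟩
      rw [if_neg hA, if_pos hB, if_neg hC, (hone _).2 hB, jacobiSum_comm,
        jacobiSum_one_nontrivial (fun h => hA ((hone _).1 h))]
      ring
    have hA1 : χ ^ (j * a) ≠ 1 := fun h => hA ((hone _).1 h)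
    have hB1 : χ ^ (j * b) ≠ 1 := fun h => hB ((hone _).1 h)
    by_cases hC : m ∣ j * (a + b)
    · rw [if_neg hA, if_neg hB, if_pos hC]
      have h1 : χ ^ (j * b) = (χ ^ (j * a))⁻¹ := by
        rw [eq_comm, inv_eq_iff_mul_eq_one, hmul, hone]
        exact hC
      rw [h1, jacobiSum_nontrivial_inv hA1, MulChar.val_neg_one_eq_one_of_odd_order hm (htor _)]
      ring
    · rw [if_neg hA, if_neg hB, if_neg hC]
      have hC1 : χ ^ (j * a) * χ ^ (j * b) ≠ 1 := by
        rw [hmul]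
        exact fun h => hC ((hone _).1 h)
      have h2 := jacobiSum_mul_nontrivial hC1 ψ
      rw [hg _ (htor _) hA1, hg _ (htor _) hB1, hmul, hg _ (htor _) (hmul ▸ hC1)] at h2
      have h3 : jacobiSum (χ ^ (j * a)) (χ ^ (j * b)) = - θ := by
        have h4 : (- θ) * (jacobiSum (χ ^ (j * a)) (χ ^ (j * b)) + θ) = 0 := by
          rw [mul_add, h2]; ring
        rcases mul_eq_zero.1 h4 with h5 | h5
        · exact absurd (neg_eq_zero.1 h5) hθ
        · exact eq_neg_of_add_eq_zero_left h5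
      rw [h3]
      ring

/-- module GJAC -/
theorem gjac (h : GsallStmt) : GjacStmt := by
  intro p i m n a b F _ _ _ _ hi hn hm hdvd hab hcard
  have hmpos : 0 < m := hm.pos
  letI : Algebra (ZMod p) F := ZMod.algebra F p
  have hp : p.Prime := Fact.out
  -- m divides card F - 1
  have hd : m ∣ Fintype.card F - 1 := by
    rw [hcard]
    have h1 : p ^ i + 1 ∣ p ^ (2 * i) - 1 := by
      refine ⟨p ^ i - 1, ?_⟩
      have := Nat.sq_sub_sq (p ^ i) 1
      rw [one_pow, ← pow_mul, mul_comm i 2] at this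
      exact this
    have h2 : p ^ (2 * i) - 1 ∣ p ^ (2 * i * n) - 1 := by
      have := Nat.sub_dvd_pow_sub_pow (p ^ (2 * i)) 1 n
      rwa [one_pow, ← pow_mul] at this
    exact hdvd.trans (h1.trans h2)
  obtain ⟨χ, hχ⟩ := MulChar.exists_mulChar_orderOf F hd (Complex.isPrimitiveRoot_exp m hmpos.ne')
  set θ : ℂ := (-(p : ℂ) ^ i) ^ n with hθdef
  have hθ : θ ≠ 0 := by
    apply pow_ne_zero
    rw [neg_ne_zero]
    exact pow_ne_zero _ (by exact_mod_cast hp.ne_zero)
  have : NeZero p := ⟨hp.ne_zero⟩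
  have hψ0 : (ZMod.stdAddChar : AddChar (ZMod p) ℂ) ≠ 1 := by
    intro h0
    have h1 := ZMod.injective_stdAddChar (N := p)
    have h2 : (0 : ZMod p) = 1 := by
      apply h1
      rw [h0]
      rfl
    have : Fact (1 < p) := ⟨hp.one_lt⟩
    exact zero_ne_one h2
  have hg := fun (η : MulChar F ℂ) (h1 : η ^ m = 1) (h2 : η ≠ 1) =>
    h p i m n F η ZMod.stdAddChar hi hn hm hdvd hcard h1 h2 hψ0
  have key : ((∑ c ∈ (univ : Finset F).filter (fun c => c ≠ 0 ∧ c ≠ 1),
      (univ.filter (fun d : F => d ^ m = c ^ a * (1 - c) ^ b)).card : ℕ) : ℂ) =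
      Fintype.card F + 1 - a.gcd m - b.gcd m - (a + b).gcd m
      - (m + 2 - a.gcd m - b.gcd m - (a + b).gcd m) * θ := by
    rw [sum_jacobi F m a b hmpos hd χ hχ]
    rw [sum_congr rfl fun j hj =>
      jacobi_val F m a b hm χ hχ hab θ hθ _ hg j (mem_range.1 hj)]
    rw [sum_add_distrib, sum_add_distrib, ← mul_sum, sum_add_distrib, sum_add_distrib]
    have hc : ∀ c : ℕ, ∑ j ∈ range m, (if m ∣ j * c then (1 : ℂ) else 0) = (c.gcd m : ℂ) := by
      intro c
      rw [← card_dvd_mul m c hmpos, sum_boole]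
    rw [hc, hc, hc, sum_const, card_range, sum_ite_eq' (range m) 0 _, if_pos (mem_range.2 hmpos),
      nsmul_eq_mul]
    ring
  have hθ' : θ = (((-(p : ℤ) ^ i) ^ n : ℤ) : ℂ) := by
    rw [hθdef]; push_cast; ring
  rw [hθ'] at key
  exact_mod_cast key

end Pool.Agent.Lib.MP_ba0fa5_ag.H7
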