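import Pool.Agent.Lib.MP_ba0fa5_ag.Iface

/-!
MP_ba0fa5_ag, module GSALL: Gauss sums over the field with `q^(2n)` elements.
-/

set_option autoImplicit false

namespace Pool.Agent.Lib.MP_ba0fa5_ag.H7

open scoped Classical
open Finset

/-- the subfield of index two -/
theorem exists_sub (p d : ℕ) [Fact p.Prime] (hd : 0 < d) (F : Type) [Field F] [Fintype F]
    [Algebra (ZMod p) F] (hc : Fintype.card F = p ^ (2 * d)) :
    ∃ (E : Type) (_ : Field E) (_ : Fintype E) (_ : Algebra (ZMod p) E) (_ : Algebra E F),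
      IsScalarTower (ZMod p) E F ∧ Fintype.card E = p ^ d ∧ Module.finrank E F = 2 := by
  have hp : p.Prime := Fact.out
  have hF : Module.finrank (ZMod p) F = 2 * d := by
    have h1 := Module.card_eq_pow_finrank (K := ZMod p) (V := F)
    rw [hc, ZMod.card] at h1
    exact (Nat.pow_right_injective hp.two_le h1).symm
  have hE : Module.finrank (ZMod p) (GaloisField p d) = d := GaloisField.finrank p hd.ne'
  have hdv : Module.finrank (ZMod p) (GaloisField p d) ∣ Module.finrank (ZMod p) F := by
    rw [hF, hE]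
    exact Dvd.intro_left 2 rfl
  obtain ⟨φ⟩ := FiniteField.nonempty_algHom_of_finrank_dvd hdv
  let _ : Algebra (GaloisField p d) F := φ.toRingHom.toAlgebra
  have hT : IsScalarTower (ZMod p) (GaloisField p d) F :=
    IsScalarTower.of_algebraMap_eq fun x => (φ.commutes x).symm
  let _ : Fintype (GaloisField p d) := Fintype.ofFinite _
  have hcE : Fintype.card (GaloisField p d) = p ^ d := by
    rw [Fintype.card_eq_nat_card]
    exact GaloisField.card p d hd.ne'
  refine ⟨GaloisField p d, inferInstance, inferInstance, inferInstance, inferInstance, hT, hcE, ?_⟩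
  have h1 := Module.card_eq_pow_finrank (K := GaloisField p d) (V := F)
  rw [hc, hcE, ← pow_mul] at h1
  have h2 := Nat.pow_right_injective hp.two_le h1
  have h3 : d * 2 = d * Module.finrank (GaloisField p d) F := by
    rw [← h2]; ring
  exact (Nat.eq_of_mul_eq_mul_left hd h3).symm

/-- a character of `F` of order dividing `|E| - 1` comes from `E` through the norm -/
theorem exists_desc (E F : Type) [Field E] [Fintype E] [Field F] [Fintype F] [Algebra E F]
    (hfr : Module.finrank E F = 2) (m : ℕ) (hm : m ∣ Fintype.card E - 1) (χ : MulChar F ℂ)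
    (hχ : χ ^ m = 1) : ∃ η : MulChar E ℂ, ∀ z : F, χ z = η (Algebra.norm E z) := by
  have hsurj := FiniteField.unitsMap_norm_surjective E F
  set N : Fˣ →* Eˣ := Units.map (Algebra.norm E (S := F)) with hN
  have hQ1 : 1 < Fintype.card E := Fintype.one_lt_card
  have hker : N.ker ≤ (MulChar.toUnitHom χ).ker := by
    intro z hz
    rw [MonoidHom.mem_ker] at hz ⊢
    obtain ⟨g, hg⟩ := IsCyclic.exists_generator (α := Fˣ)
    have hcard : orderOf g = Fintype.card F - 1 := by
      rw [orderOf_eq_card_of_forall_mem_zpowers hg, Nat.card_eq_fintype_card, Fintype.card_units]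
    obtain ⟨k, hk⟩ : ∃ k : ℕ, g ^ k = z := by
      have := hg z
      rw [← mem_powers_iff_mem_zpowers] at this
      exact this
    have h1 : z ^ (Fintype.card E + 1) = 1 := by
      have h2 := FiniteField.algebraMap_norm_eq_pow_sum E F (z : F)
      rw [hfr, Nat.card_eq_fintype_card] at h2
      have h3 : Algebra.norm E (z : F) = 1 := congrArg Units.val hz
      rw [h3, map_one] at h2
      ext
      push_cast
      rw [h2]
      congr 1
      simp [sum_range_succ]
      ring
    have hcF : Fintype.card F - 1 = (Fintype.card E - 1) * (Fintype.card E + 1) := by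
      rw [Module.card_eq_pow_finrank (K := E) (V := F), hfr]
      have := Nat.sq_sub_sq (Fintype.card E) 1
      rw [one_pow] at this
      rw [this]
      ring
    rw [← hk, ← pow_mul] at h1
    have h2 := orderOf_dvd_of_pow_eq_one h1
    rw [hcard, hcF] at h2
    have h3 : Fintype.card E - 1 ∣ k := Nat.dvd_of_mul_dvd_mul_right (by omega) h2
    obtain ⟨c, hc⟩ := hm.trans h3
    have h4 : (MulChar.toUnitHom χ z) = 1 := by
      ext
      rw [MulChar.coe_toUnitHom, ← hk, hc, pow_mul, Units.val_pow_eq_pow_val,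
        Units.val_pow_eq_pow_val, map_pow, map_pow, Units.val_one]
      have h5 : (χ (g : F)) ^ m = 1 := by
        rw [← MulChar.pow_apply_coe, hχ]
        exact MulChar.one_apply_coe g
      rw [h5, one_pow]
    exact h4
  refine ⟨MulChar.ofUnitHom (N.liftOfSurjective hsurj ⟨MulChar.toUnitHom χ, hker⟩), ?_⟩
  intro z
  rcases eq_or_ne z 0 with rfl | hz
  · rw [Algebra.norm_zero, MulChar.map_zero, MulChar.map_zero]
  · have h1 : Algebra.norm E z = (N (Units.mk0 z hz) : Eˣ) := rfl
    rw [h1, MulChar.ofUnitHom_coe]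
    have h2 := MonoidHom.liftOfRightInverse_comp_apply N _ (Function.rightInverse_surjInv hsurj)
      ⟨MulChar.toUnitHom χ, hker⟩ (Units.mk0 z hz)
    have h3 : N.liftOfSurjective hsurj ⟨MulChar.toUnitHom χ, hker⟩ (N (Units.mk0 z hz)) =
      MulChar.toUnitHom χ (Units.mk0 z hz) := h2
    rw [h3, MulChar.coe_toUnitHom]
    rfl

theorem gsall (h1 : GsoddStmt) (h2 : GsdblStmt) : GsallStmt := by
  intro p i m n
  induction n using Nat.strong_induction_on with
  | _ n ih =>
  intro F _ _ _ _ χ ψ hi hn hm hdvd hcard hχm hχ hψ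
  have hp : p.Prime := Fact.out
  obtain ⟨E, _, _, _, _, hT, hcE, hfr⟩ := exists_sub p (i * n) (Nat.mul_pos hi hn) F
    (by rw [hcard]; congr 1; ring)
  set ψE : AddChar E ℂ := ψ.compAddMonoidHom (Algebra.trace (ZMod p) E).toAddMonoidHom with hψE
  have htr : ψ.compAddMonoidHom (Algebra.trace (ZMod p) F).toAddMonoidHom =
      ψE.compAddMonoidHom (Algebra.trace E F).toAddMonoidHom := by
    ext z
    change ψ (Algebra.trace (ZMod p) F z) =
      ψ (Algebra.trace (ZMod p) E (Algebra.trace E F z))
    rw [Algebra.trace_trace]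
  have hψE1 : ψE ≠ 1 := by
    intro h0
    apply hψ
    ext x
    obtain ⟨e, rfl⟩ := Algebra.trace_surjective (ZMod p) E x
    have := DFunLike.congr_fun h0 e
    exact this
  rcases Nat.even_or_odd n with hev | hodd
  · -- even `n`
    obtain ⟨n', hn'⟩ := hev
    have hn'0 : 0 < n' := by omega
    have hmE : m ∣ Fintype.card E - 1 := by
      rw [hcE, hn']
      have h3 : p ^ i + 1 ∣ p ^ (2 * i) - 1 := by
        refine ⟨p ^ i - 1, ?_⟩
        have := Nat.sq_sub_sq (p ^ i) 1
        rw [one_pow, ← pow_mul, mul_comm i 2] at this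
        exact this
      have h4 : p ^ (2 * i) - 1 ∣ p ^ (i * (n' + n')) - 1 := by
        have := Nat.sub_dvd_pow_sub_pow (p ^ (2 * i)) 1 n'
        rw [one_pow, ← pow_mul] at this
        rwa [show i * (n' + n') = 2 * i * n' by ring]
      exact hdvd.trans (h3.trans h4)
    obtain ⟨η, hη⟩ := exists_desc E F hfr m hmE χ hχm
    have hη1 : η ≠ 1 := by
      rintro rfl
      apply hχ
      ext z
      rw [hη, MulChar.one_apply_coe, MulChar.one_apply]
      exact (Algebra.norm_ne_zero_iff.2 z.ne_zero).isUnit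
    have hηm : η ^ m = 1 := by
      ext e
      obtain ⟨z, hz⟩ := FiniteField.unitsMap_norm_surjective E F e
      have h3 : (e : E) = Algebra.norm E (z : F) := by
        rw [← hz]; rfl
      rw [MulChar.pow_apply_coe, h3, ← hη, ← MulChar.pow_apply_coe, hχm, MulChar.one_apply_coe,
        ← h3, MulChar.one_apply_coe]
    have h3 := ih n' (by omega) E η ψ hi hn'0 hm hdvd (by rw [hcE, hn']; congr 1; ring) hηm hη1 hψ
    rw [htr, h2 E F η χ ψE hfr hη1 hψE1 hη, hψE, h3, neg_sq, ← pow_mul, hn', mul_two]
  · -- odd `n`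
    have hmE : m ∣ Fintype.card E + 1 := by
      rw [hcE, pow_mul]
      have := Odd.nat_add_dvd_pow_add_pow (p ^ i) 1 hodd
      rw [one_pow] at this
      exact hdvd.trans this
    rw [htr, h1 E F m χ ψE hfr hm hmE hχm hχ hψE1, hcE, hodd.neg_pow, neg_neg]
    push_cast
    rw [pow_mul]

end Pool.Agent.Lib.MP_ba0fa5_ag.H7
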