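import Pool.Agent.Lib.MP_ba0fa5_ag.Iface

/-!
MP_ba0fa5_ag, module GSDBL: Davenport-Hasse for a quadratic extension.
-/

set_option autoImplicit false

namespace Pool.Agent.Lib.MP_ba0fa5_ag.H7

open scoped Classical
open Finset

section

variable (E F : Type) [Field E] [Fintype E] [Field F] [Fintype F] [Algebra E F]

/-- the pairs of elements of `E` with given sum and product -/
noncomputable def pset (q : E × E) : Finset (E × E) :=
  univ.filter (fun ab : E × E => (ab.1 + ab.2, ab.1 * ab.2) = q)

/-- the elements of `F` with given trace and norm -/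
noncomputable def zset (q : E × E) : Finset F :=
  univ.filter (fun z : F => (Algebra.trace E F z, Algebra.norm E z) = q)

variable {E F}

theorem char_poly (hfr : Module.finrank E F = 2) (z : F) :
    z * (algebraMap E F (Algebra.trace E F z) - z) = algebraMap E F (Algebra.norm E z) := by
  have h1 := FiniteField.algebraMap_trace_eq_sum_pow E F z
  have h2 := FiniteField.algebraMap_norm_eq_pow_sum E F z
  rw [hfr] at h1 h2
  rw [h1, h2]
  simp only [sum_range_succ, range_zero, sum_empty, pow_zero, pow_one, zero_add]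
  rw [pow_add]
  ring

theorem card_pset_le (q : E × E) : (pset E q).card ≤ 2 := by
  rcases (pset E q).eq_empty_or_nonempty with h | ⟨⟨a, b⟩, h⟩
  · rw [h]; simp
  have hab := (mem_filter.1 h).2
  rw [Prod.ext_iff] at hab
  obtain ⟨h1, h2⟩ := hab
  simp only at h1 h2
  have hsub : pset E q ⊆ {(a, b), (b, a)} := by
    rintro ⟨c, d⟩ hcd
    have hcd' := (mem_filter.1 hcd).2
    rw [Prod.ext_iff] at hcd'
    obtain ⟨h3, h4⟩ := hcd'
    simp only at h3 h4
    have h5 : (c - a) * (c - b) = 0 := by
      have h6 : c + d = a + b := h3.trans h1.symm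
      have h7 : c * d = a * b := h4.trans h2.symm
      linear_combination c * h6 - h7
    have h6 : c + d = a + b := h3.trans h1.symm
    rcases mul_eq_zero.1 h5 with h7 | h7
    · have h8 : c = a := sub_eq_zero.1 h7
      have h9 : d = b := by rw [h8] at h6; exact add_left_cancel h6
      simp [h8, h9]
    · have h8 : c = b := sub_eq_zero.1 h7
      have h9 : d = a := by rw [h8, add_comm a b] at h6; exact add_left_cancel h6
      simp [h8, h9]
  exact (card_le_card hsub).trans card_le_two

theorem card_le (hfr : Module.finrank E F = 2) (q : E × E) :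
    (zset E F q).card + (pset E q).card ≤ 2 := by
  rcases (zset E F q).eq_empty_or_nonempty with h | ⟨z, hz⟩
  · rw [h, card_empty, zero_add]
    exact card_pset_le q
  have hz' := (mem_filter.1 hz).2
  rw [Prod.ext_iff] at hz'
  obtain ⟨hz1, hz2⟩ := hz'
  simp only at hz1 hz2
  have hzq := char_poly hfr z
  rw [hz1, hz2] at hzq
  set s' : F := algebraMap E F q.1 with hs'
  set t' : F := algebraMap E F q.2 with ht'
  have hroot : ∀ w : F, w * (s' - w) = t' → w = z ∨ w = s' - z := by
    intro w hw
    have h1 : (w - z) * (w - (s' - z)) = 0 := by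
      linear_combination hzq - hw
    rcases mul_eq_zero.1 h1 with h2 | h2
    · exact Or.inl (sub_eq_zero.1 h2)
    · exact Or.inr (sub_eq_zero.1 h2)
  have hsub : zset E F q ⊆ {z, s' - z} := by
    intro w hw
    have hw' := (mem_filter.1 hw).2
    rw [Prod.ext_iff] at hw'
    obtain ⟨hw1, hw2⟩ := hw'
    simp only at hw1 hw2
    have h1 := char_poly hfr w
    rw [hw1, hw2] at h1
    rw [mem_insert, mem_singleton]
    exact hroot w h1
  rcases (pset E q).eq_empty_or_nonempty with h | ⟨⟨a, b⟩, hab⟩
  · rw [h, card_empty, add_zero]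
    exact (card_le_card hsub).trans card_le_two
  -- then `z` is in `E`
  have hab' := (mem_filter.1 hab).2
  rw [Prod.ext_iff] at hab'
  obtain ⟨h1, h2⟩ := hab'
  simp only at h1 h2
  have hE : ∃ e : E, z = algebraMap E F e := by
    have h3 : algebraMap E F a * (s' - algebraMap E F a) = t' := by
      rw [hs', ht', ← map_sub, ← map_mul, ← h1, ← h2]
      congr 1
      ring
    rcases hroot _ h3 with h4 | h4
    · exact ⟨a, h4.symm⟩
    · refine ⟨q.1 - a, ?_⟩
      rw [map_sub, ← hs', h4]
      ring
  obtain ⟨e, rfl⟩ := hE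
  rw [Algebra.trace_algebraMap, hfr] at hz1
  rw [Algebra.norm_algebraMap, hfr] at hz2
  have hz1' : q.1 = e + e := by rw [← hz1, two_nsmul]
  have hz2' : q.2 = e * e := by rw [← hz2, pow_two]
  have hsub1 : zset E F q ⊆ {algebraMap E F e} := by
    intro w hw
    have h3 := hsub hw
    rw [mem_insert, mem_singleton] at h3
    rw [mem_singleton]
    rcases h3 with h3 | h3
    · exact h3
    · rw [h3, hs', hz1', map_add]
      ring
  have hsub2 : pset E q ⊆ {(e, e)} := by
    rintro ⟨c, d⟩ hcd
    have hcd' := (mem_filter.1 hcd).2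
    rw [Prod.ext_iff] at hcd'
    obtain ⟨h3, h4⟩ := hcd'
    simp only at h3 h4
    rw [hz1'] at h3
    rw [hz2'] at h4
    have h5 : (c - e) * (c - e) = 0 := by
      linear_combination c * h3 - h4
    have h6 : c = e := by
      rcases mul_eq_zero.1 h5 with h7 | h7 <;> exact sub_eq_zero.1 h7
    have h7 : d = e := by
      rw [h6] at h3
      exact add_left_cancel h3
    simp [h6, h7]
  have h3 := card_le_card hsub1
  have h4 := card_le_card hsub2
  rw [card_singleton] at h3 h4
  omega

theorem card_eq_two (hfr : Module.finrank E F = 2) (q : E × E) :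
    (zset E F q).card + (pset E q).card = 2 := by
  have h1 : ∑ q : E × E, (zset E F q).card = Fintype.card F := by
    have := card_eq_sum_card_fiberwise (s := (univ : Finset F)) (t := (univ : Finset (E × E)))
      (f := fun z => (Algebra.trace E F z, Algebra.norm E z)) (fun _ _ => mem_coe.2 (mem_univ _))
    rw [card_univ] at this
    exact this.symm
  have h2 : ∑ q : E × E, (pset E q).card = Fintype.card (E × E) := by
    have := card_eq_sum_card_fiberwise (s := (univ : Finset (E × E)))
      (t := (univ : Finset (E × E))) (f := fun ab : E × E => (ab.1 + ab.2, ab.1 * ab.2))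
      (fun _ _ => mem_coe.2 (mem_univ _))
    rw [card_univ] at this
    exact this.symm
  have h3 : Fintype.card F = Fintype.card (E × E) := by
    rw [Module.card_eq_pow_finrank (K := E) (V := F), hfr, Fintype.card_prod, pow_two]
  have h4 : ∑ q : E × E, ((zset E F q).card + (pset E q).card) = ∑ _q : E × E, 2 := by
    rw [sum_add_distrib, h1, h2, h3, sum_const, card_univ, smul_eq_mul]
    ring
  exact (sum_eq_sum_iff_of_le (fun i _ => card_le hfr i)).1 h4 q (mem_univ q)

end

theorem gsdbl : GsdblStmt := by
  intro E F _ _ _ _ _ χ χ' ψ hfr hχ hψ hN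
  have h1 : gaussSum χ' (ψ.compAddMonoidHom (Algebra.trace E F).toAddMonoidHom) =
      ∑ q : E × E, ((zset E F q).card : ℂ) * (χ q.2 * ψ q.1) := by
    rw [gaussSum]
    rw [← sum_fiberwise univ (fun z : F => (Algebra.trace E F z, Algebra.norm E z))]
    refine sum_congr rfl fun q _ => ?_
    rw [← nsmul_eq_mul, ← sum_const]
    refine sum_congr rfl fun z hz => ?_
    have hz' := (mem_filter.1 hz).2
    rw [← hz', hN]
    rfl
  have h2 : (gaussSum χ ψ) ^ 2 = ∑ q : E × E, ((pset E q).card : ℂ) * (χ q.2 * ψ q.1) := by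
    rw [gaussSum, pow_two, sum_mul_sum, ← univ_product_univ, ← sum_product',
      univ_product_univ]
    rw [← sum_fiberwise univ (fun ab : E × E => (ab.1 + ab.2, ab.1 * ab.2))]
    refine sum_congr rfl fun q _ => ?_
    rw [← nsmul_eq_mul, ← sum_const]
    refine sum_congr rfl fun z hz => ?_
    have hz' := (mem_filter.1 hz).2
    rw [← hz', map_mul, AddChar.map_add_eq_mul]
    ring
  have h3 : ∑ q : E × E, ((2 : ℕ) : ℂ) * (χ q.2 * ψ q.1) = 0 := by
    rw [← mul_sum, ← univ_product_univ, sum_product]
    simp only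
    have h4 : ∀ s : E, ∑ t : E, χ t * ψ s = 0 := by
      intro s
      rw [← sum_mul, MulChar.sum_eq_zero_of_ne_one hχ, zero_mul]
    rw [sum_congr rfl (fun s _ => h4 s)]
    simp
  rw [eq_neg_iff_add_eq_zero, h1, h2, ← sum_add_distrib, ← h3]
  refine sum_congr rfl fun q _ => ?_
  rw [← card_eq_two hfr q]
  push_cast
  ring

end Pool.Agent.Lib.MP_ba0fa5_ag.H7
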