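import Pool.Agent.Lib.MP_ba0fa5_ag.Iface

/-!
MP_ba0fa5_ag, module GSODD: Gauss sums of characters of odd order dividing `Q + 1` over the field
with `Q²` elements.
-/

set_option autoImplicit false

namespace Pool.Agent.Lib.MP_ba0fa5_ag.H7

open scoped Classical
open Finset

/-- powers of a character at nonzero elements -/
theorem pow_ap {F : Type} [Field F] (χ : MulChar F ℂ) (n : ℕ) {x : F} (hx : x ≠ 0) :
    (χ ^ n) x = (χ x) ^ n := by
  have := MulChar.pow_apply_coe χ n (Units.mk0 x hx)
  simpa using this

/-- an element of order dividing `2` and an odd number is `1` -/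
theorem eq_one_of_odd {z : ℂ} {m : ℕ} (hm : Odd m) (h2 : z ^ 2 = 1) (hz : z ^ m = 1) : z = 1 := by
  obtain ⟨k, rfl⟩ := hm
  rw [pow_succ, pow_mul, h2, one_pow, one_mul] at hz
  exact hz

/-- number of elements of trace zero in a quadratic extension -/
theorem card_trace_zero (E F : Type) [Field E] [Fintype E] [Field F] [Fintype F] [Algebra E F]
    (hfr : Module.finrank E F = 2) :
    (univ.filter (fun z : F => Algebra.trace E F z = 0)).card = Fintype.card E := by
  have hsurj : Function.Surjective (Algebra.trace E F) := Algebra.trace_surjective E F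
  have h1 := LinearMap.finrank_range_add_finrank_ker (Algebra.trace E F)
  rw [LinearMap.range_eq_top.2 hsurj, finrank_top, Module.finrank_self, hfr] at h1
  have h2 : Module.finrank E (LinearMap.ker (Algebra.trace E F)) = 1 := by omega
  have h3 : Fintype.card (LinearMap.ker (Algebra.trace E F)) = Fintype.card E := by
    rw [Module.card_eq_pow_finrank (K := E), h2, pow_one]
  rw [← h3, Fintype.card_subtype]
  congr 1

theorem gsodd : GsoddStmt := by
  intro E F _ _ _ _ _ m χ ψ hfr hm hdvd hχm hχ hψ
  set Q := Fintype.card E with hQ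
  have hQ1 : 1 < Q := Fintype.one_lt_card
  have hψp : ψ.IsPrimitive := AddChar.IsPrimitive.of_ne_one hψ
  -- `χ` is trivial on `E`
  have hnorm : ∀ z : F, algebraMap E F (Algebra.norm E z) = z ^ (Q + 1) := by
    intro z
    have := FiniteField.algebraMap_norm_eq_pow_sum E F z
    rw [hfr, Nat.card_eq_fintype_card, ← hQ] at this
    rw [this]
    congr 1
    simp [sum_range_succ]
    ring
  have hχm' : ∀ z : F, z ≠ 0 → (χ z) ^ m = 1 := by
    intro z hz
    rw [← pow_ap χ m hz, hχm]
    exact MulChar.one_apply hz.isUnit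
  have hχE : ∀ e : E, e ≠ 0 → χ (algebraMap E F e) = 1 := by
    intro e he
    obtain ⟨z, rfl⟩ := FiniteField.norm_surjective E F e
    have hz : z ≠ 0 := by
      rintro rfl
      exact he (Algebra.norm_zero)
    rw [hnorm, map_pow]
    obtain ⟨c, hc⟩ := hdvd
    rw [hc, pow_mul, hχm' z hz, one_pow]
  -- `χ` is trivial on elements of trace zero
  have hχT : ∀ z : F, z ≠ 0 → Algebra.trace E F z = 0 → χ z = 1 := by
    intro z hz hT
    have h1 := FiniteField.algebraMap_trace_eq_sum_pow E F z
    rw [hfr, Nat.card_eq_fintype_card, ← hQ, hT, map_zero] at h1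
    have h2 : z ^ Q = - z := by
      have h3 : z + z ^ Q = 0 := by
        simpa [sum_range_succ] using h1.symm
      exact eq_neg_of_add_eq_zero_right h3
    have h3 : z ^ 2 = algebraMap E F (- Algebra.norm E z) := by
      rw [map_neg, hnorm, pow_succ z Q, h2]
      ring
    have h4 : - Algebra.norm E z ≠ 0 := by
      rw [neg_ne_zero]
      exact (Algebra.norm_ne_zero_iff).2 hz
    have h5 : (χ z) ^ 2 = 1 := by
      rw [← map_pow, h3, hχE _ h4]
    exact eq_one_of_odd hm h5 (hχm' z hz)
  set ψ' := ψ.compAddMonoidHom (Algebra.trace E F).toAddMonoidHom with hψ'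
  have hψ'ap : ∀ z : F, ψ' z = ψ (Algebra.trace E F z) := fun z => rfl
  set G := gaussSum χ ψ' with hG
  -- the sums over the orbits
  have horb : ∀ e : E, e ≠ 0 → ∑ z : F, χ z * ψ (e * Algebra.trace E F z) = G := by
    intro e he
    have hu : algebraMap E F e ≠ 0 := by
      simpa using he
    have h1 := Equiv.sum_comp (Equiv.mulLeft₀ (algebraMap E F e) hu) (fun z => χ z * ψ' z)
    rw [hG, gaussSum, ← h1]
    refine sum_congr rfl fun z _ => ?_
    change χ z * ψ (e * Algebra.trace E F z) =
      χ (algebraMap E F e * z) * ψ' (algebraMap E F e * z)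
    rw [map_mul χ, hχE e he, one_mul, hψ'ap, ← Algebra.smul_def, map_smul, smul_eq_mul]
  have hsum : ∑ e : E, ∑ z : F, χ z * ψ (e * Algebra.trace E F z) = ((Q : ℂ) - 1) * G := by
    rw [← add_sum_erase univ _ (mem_univ (0 : E))]
    have h1 : ∑ z : F, χ z * ψ ((0 : E) * Algebra.trace E F z) = 0 := by
      simp only [zero_mul, AddChar.map_zero_eq_one, mul_one]
      exact MulChar.sum_eq_zero_of_ne_one hχ
    rw [h1, zero_add, sum_congr rfl (fun e he => horb e (ne_of_mem_erase he)), sum_const,
      card_erase_of_mem (mem_univ _), card_univ, ← hQ, nsmul_eq_mul, Nat.cast_sub hQ1.le,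
      Nat.cast_one]
  have hsum2 : ∑ e : E, ∑ z : F, χ z * ψ (e * Algebra.trace E F z) = (Q : ℂ) * ((Q : ℂ) - 1) := by
    rw [sum_comm]
    have h1 : ∀ z : F, ∑ e : E, χ z * ψ (e * Algebra.trace E F z) =
        if z = 0 then 0 else (if Algebra.trace E F z = 0 then (Q : ℂ) else 0) := by
      intro z
      rw [← mul_sum, AddChar.sum_mulShift _ hψp]
      split_ifs with h2 h3 h3
      · rw [h3, MulChar.map_zero, zero_mul]
      · rw [hχT z h3 h2, one_mul]
      · rw [h3, map_zero] at h2
        exact absurd rfl h2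
      · simp
    rw [sum_congr rfl (fun z _ => h1 z)]
    rw [← add_sum_erase univ _ (mem_univ (0 : F)), if_pos rfl, zero_add,
      sum_congr rfl (fun z hz => if_neg (ne_of_mem_erase hz))]
    rw [← sum_filter, sum_const, nsmul_eq_mul, mul_comm]
    congr 1
    have h2 : (univ.erase (0 : F)).filter (fun z => Algebra.trace E F z = 0) =
        (univ.filter (fun z : F => Algebra.trace E F z = 0)).erase 0 := by
      rw [filter_erase]
    rw [h2, card_erase_of_mem (by simp), card_trace_zero E F hfr, ← hQ, Nat.cast_sub hQ1.le,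
      Nat.cast_one]
  have hne : (Q : ℂ) - 1 ≠ 0 := by
    rw [sub_ne_zero]
    exact_mod_cast hQ1.ne'
  have := hsum.symm.trans hsum2
  rw [mul_comm (Q : ℂ)] at this
  exact mul_left_cancel₀ hne this

end Pool.Agent.Lib.MP_ba0fa5_ag.H7
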